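import Pool.Agent.Y554.SN.Stm
import Pool.Agent.H389R2.NS.E1b
import Pool.Agent.H988R6.Up

/-!
# Lower bound for the four-arm probability of an annulus

`c (a / N)^(5/4) ≤ P(AF4 a N)`: the four-arm event of an edge splits in a box and an annulus, and
the four-arm probability of an edge is between `c k^(-5/4)` and `C k^(-5/4)`.
-/

set_option autoImplicit false

namespace Pool.Agent.Y50.SN

open H974 H12S H985T H389NS Finset Pool.Agent.Y554.SN

theorem bdB_zero {a : ℕ} {v : Vtx} (h : v ∈ bdB (0, 0) a) : onB a v := by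
  have h1 : |v.1 - 0| ≤ (a:ℤ) ∧ |v.2 - 0| ≤ (a:ℤ) ∧ (|v.1 - 0| = (a:ℤ) ∨ |v.2 - 0| = (a:ℤ)) := h
  rw [sub_zero, sub_zero] at h1
  have h0 : (0:ℤ) ≤ a := Int.natCast_nonneg a
  rw [abs_le, abs_le, abs_eq h0, abs_eq h0] at h1
  unfold onB inR
  omega

theorem blk_zero (a : ℕ) : blk (0, 0) a = boxE a := by
  unfold blk boxE
  rw [zero_sub, zero_add]

/-- the four arms of the annulus -/
theorem AF4_of_A4a {a N : ℕ} {F : Set Edg} (h : A4a (0, 0) a N F) : AF4 a N F := by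
  obtain ⟨u, hu, u', hu', ⟨w, hw, h1⟩, ⟨w', hw', h2⟩, h3⟩ := h
  rw [blk_zero, blk_zero] at h1 h2 h3
  exact ⟨u, u', w, w', bdB_zero hu, bdB_zero hu', bdB_zero hw, bdB_zero hw', h1, h2, h3⟩

theorem AF4_loc {a N : ℕ} {F : Finset Edg} :
    AF4 a N (↑F : Set Edg) ↔ AF4 a N (↑(F ∩ An a N) : Set Edg) := by
  have e : ((↑(F ∩ An a N) : Set Edg) ∩ ↑(An a N)) = (↑F : Set Edg) ∩ ↑(An a N) := by
    rw [Finset.coe_inter, Set.inter_assoc, Set.inter_self]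
  unfold AF4
  rw [e]

theorem ebx_e0 (β : Bool) (k : ℕ) : ebx (e0 β) k = boxE k := by
  unfold ebx boxE e0
  simp only [zero_sub, zero_add]

/-- one edge -/
theorem split_le {a N : ℕ} (ha : 1 ≤ a) (haN : a ≤ N) (β : Bool) :
    PQ (1 / 2) (boxE N) (fun F => A4 (-N) N (-N) N (e0 β) ↑F) ≤
      PQ (1 / 2) (boxE a) (fun F => A4 (-a) a (-a) a (e0 β) ↑F) *
        PQ (1 / 2) (An a N) (fun F => AF4 a N ↑F) := by
  have ok := okq (q := 1 / 2) (by norm_num) (by norm_num)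
  have hbox : boxE a ⊆ boxE N := RE_subset (by omega) (by omega) (by omega) (by omega)
  have hAn : An a N ⊆ boxE N := Finset.sdiff_subset
  have hA4 : ∀ (k : ℕ) (F : Set Edg), A4e k (e0 β) F ↔ A4 (-k) k (-k) k (e0 β) F := by
    intro k F
    unfold A4e e0
    simp only [zero_sub, zero_add]
  have h1 : PQ (1 / 2) (boxE N) (fun F => A4 (-N) N (-N) N (e0 β) ↑F) ≤
      PQ (1 / 2) (boxE N) (fun F => A4 (-a) a (-a) a (e0 β) ↑F ∧ AF4 a N ↑F) := by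
    apply Pr_mono ok
    intro F _ hF
    obtain ⟨g1, g2⟩ := A4e_split1 ha haN ((hA4 N _).mpr hF)
    exact ⟨(hA4 a _).mp g1, AF4_of_A4a g2⟩
  refine h1.trans (le_of_eq ?_)
  have loc1 : ∀ F : Finset Edg, F ⊆ boxE N → (A4 (-a) a (-a) a (e0 β) (↑F : Set Edg) ↔
      A4 (-a) a (-a) a (e0 β) (↑(F ∩ boxE a) : Set Edg)) := by
    intro F _
    have e : ((↑(F ∩ boxE a) : Set Edg) ∩ ↑(RE (-a) a (-a) a)) =
        (↑F : Set Edg) ∩ ↑(RE (-a) a (-a) a) := by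
      rw [Finset.coe_inter, Set.inter_assoc]
      unfold boxE
      rw [Set.inter_self]
    unfold A4
    rw [e]
  have loc2 : ∀ F : Finset Edg, F ⊆ boxE N → (AF4 a N (↑F : Set Edg) ↔
      AF4 a N (↑(F ∩ An a N) : Set Edg)) := fun F _ => AF4_loc
  have h2 := Pr_indep (p := fun _ : Edg => (1 / 2 : ℝ)) (U := boxE N) hbox hAn
    Finset.disjoint_sdiff (A := fun F => A4 (-a) a (-a) a (e0 β) (↑F : Set Edg))
    (B := fun F => AF4 a N (↑F : Set Edg)) loc1 loc2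
  refine h2.trans ?_
  have h3 := Pr_local (p := fun _ : Edg => (1 / 2 : ℝ)) hbox
    (A := fun F => A4 (-a) a (-a) a (e0 β) (↑F : Set Edg)) loc1
  have h4 := Pr_local (p := fun _ : Edg => (1 / 2 : ℝ)) hAn
    (A := fun F => AF4 a N (↑F : Set Edg)) loc2
  rw [h3, h4]

/-- **Lower bound for the four-arm probability of an annulus.** -/
theorem af4L : S_AF4L := by
  obtain ⟨c, C, hc, hC, hs⟩ := Pool.Agent.H988R6.a4_sharp
  refine ⟨c / C, by positivity, ?_⟩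
  intro a N ha haN
  have ha0 : (0:ℝ) < a := by exact_mod_cast ha
  have hN0 : (0:ℝ) < N := by exact_mod_cast (lt_of_lt_of_le ha haN)
  have h1 := (hs N (ha.trans haN)).1
  have h2 := (hs a ha).2
  set p : ℝ := PQ (1 / 2) (An a N) (fun F => AF4 a N ↑F) with hp
  have hp0 : 0 ≤ p := Pr_nonneg (okq (by norm_num) (by norm_num)) _ _
  have h3 : a4 (1 / 2) N ≤ a4 (1 / 2) a * p := by
    have k1 := split_le ha haN true
    have k2 := split_le ha haN false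
    rw [← hp] at k1 k2
    unfold a4
    rw [add_mul]
    exact add_le_add k1 k2
  have h4 : c * (N:ℝ) ^ (-(5/4) : ℝ) ≤ C * (a:ℝ) ^ (-(5/4) : ℝ) * p :=
    h1.trans (h3.trans (mul_le_mul_of_nonneg_right h2 hp0))
  rw [Real.rpow_neg hN0.le, Real.rpow_neg ha0.le] at h4
  rw [Real.div_rpow ha0.le hN0.le]
  have hA : 0 < (a:ℝ) ^ (5/4 : ℝ) := by positivity
  have hB : 0 < (N:ℝ) ^ (5/4 : ℝ) := by positivity
  have h5 : c / C * ((a:ℝ) ^ (5/4 : ℝ) / (N:ℝ) ^ (5/4 : ℝ)) =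
      (c * ((N:ℝ) ^ (5/4 : ℝ))⁻¹) * ((a:ℝ) ^ (5/4 : ℝ) / C) := by
    field_simp
  rw [h5]
  calc (c * ((N:ℝ) ^ (5/4 : ℝ))⁻¹) * ((a:ℝ) ^ (5/4 : ℝ) / C) ≤
      (C * ((a:ℝ) ^ (5/4 : ℝ))⁻¹ * p) * ((a:ℝ) ^ (5/4 : ℝ) / C) :=
        mul_le_mul_of_nonneg_right h4 (by positivity)
    _ = p := by field_simp

end Pool.Agent.Y50.SN
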